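import Mathlib
import Pool.Agent.Work.MP_9fe0db_an.Main
import Pool.Agent.Work.MP_9fe0db_an.Dim

set_option autoImplicit false

/-!
# Simultaneous renorming with moduli of power type, for all exponents

If a real normed space has an equivalent norm whose modulus of convexity has power type `q`
and an equivalent norm whose modulus of smoothness has power type `p > 1`, then one equivalent
norm has both properties.  The moduli are the functions of the literature; the infimum and the
supremum which define them are taken in the extended reals, so that the convention for the empty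
set (which matters for the zero space only) is the usual one.
-/

universe u

namespace Pool.Agent.Results.MP_9fe0db_an.AllExponents

variable {X : Type u} [NormedAddCommGroup X] [NormedSpace ℝ X]

/-- `N` is an equivalent norm on `X` (a renorming of `X`). -/
def IsEquivalentNorm (N : X → ℝ) : Prop :=
  (∀ x y : X, N (x + y) ≤ N x + N y) ∧ (∀ (c : ℝ) (x : X), N (c • x) = |c| * N x) ∧
    ∃ a b : ℝ, 0 < a ∧ 0 < b ∧ ∀ x : X, a * ‖x‖ ≤ N x ∧ N x ≤ b * ‖x‖

/-- The modulus of convexity of `N` at `ε`: the infimum of `1 - N ((u + v) / 2)` over all `u, v`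
in the unit sphere of `N` with `N (u - v) ≥ ε`. -/
noncomputable def modulusOfConvexity (N : X → ℝ) (ε : ℝ) : EReal :=
  ⨅ (u : X) (v : X) (_ : N u = 1) (_ : N v = 1) (_ : ε ≤ N (u - v)),
    ((1 - N ((1 / 2 : ℝ) • (u + v)) : ℝ) : EReal)

/-- The modulus of smoothness of `N` at `τ`: the supremum of `(N (u + τ v) + N (u - τ v)) / 2 - 1`
over all `u, v` in the unit sphere of `N`. -/
noncomputable def modulusOfSmoothness (N : X → ℝ) (τ : ℝ) : EReal :=
  ⨆ (u : X) (v : X) (_ : N u = 1) (_ : N v = 1),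
    (((N (u + τ • v) + N (u - τ • v)) / 2 - 1 : ℝ) : EReal)

/-- The modulus of convexity of `N` has power type `q`: for some `K > 0` it is at least `K ε ^ q`
for all `0 < ε < 2`. -/
def ConvexityPowerType (N : X → ℝ) (q : ℝ) : Prop :=
  ∃ K : ℝ, 0 < K ∧ ∀ ε : ℝ, 0 < ε → ε < 2 → ((K * ε ^ q : ℝ) : EReal) ≤ modulusOfConvexity N ε

/-- The modulus of smoothness of `N` has power type `p`: for some real `K` it is at most `K τ ^ p`
for all `τ > 0`. -/
def SmoothnessPowerType (N : X → ℝ) (p : ℝ) : Prop :=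
  ∃ K : ℝ, ∀ τ : ℝ, 0 < τ → modulusOfSmoothness N τ ≤ ((K * τ ^ p : ℝ) : EReal)

theorem convexity_iff (N : X → ℝ) (K ε q : ℝ) :
    ((K * ε ^ q : ℝ) : EReal) ≤ modulusOfConvexity N ε ↔
      ∀ u v : X, N u = 1 → N v = 1 → ε ≤ N (u - v) →
        K * ε ^ q ≤ 1 - N ((1 / 2 : ℝ) • (u + v)) := by
  simp only [modulusOfConvexity, le_iInf_iff, EReal.coe_le_coe_iff]

theorem smoothness_iff (N : X → ℝ) (K τ p : ℝ) :
    modulusOfSmoothness N τ ≤ ((K * τ ^ p : ℝ) : EReal) ↔
      ∀ u v : X, N u = 1 → N v = 1 →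
        (N (u + τ • v) + N (u - τ • v)) / 2 - 1 ≤ K * τ ^ p := by
  simp only [modulusOfSmoothness, iSup_le_iff, EReal.coe_le_coe_iff]

open Pool.Agent.Work.MP_9fe0db_an in
theorem convexity_closed {N : X → ℝ} {q : ℝ} (h : ConvexityPowerType N q) :
    ∃ K : ℝ, 0 < K ∧ ∀ ε : ℝ, 0 < ε → ε ≤ 2 → ∀ x y : X, N x = 1 → N y = 1 →
      ε ≤ N (x - y) → K * ε ^ q ≤ 1 - N ((1 / 2 : ℝ) • (x + y)) := by
  obtain ⟨K, hK, hδ⟩ := h
  refine ⟨K / 2 ^ q, by positivity, fun ε hε hε2 x y hx hy hxy => ?_⟩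
  have h1 := (convexity_iff N K (ε / 2) q).1 (hδ (ε / 2) (by linarith) (by linarith)) x y hx hy
    (by linarith)
  rw [Real.div_rpow hε.le (by norm_num)] at h1
  calc K / 2 ^ q * ε ^ q = K * (ε ^ q / 2 ^ q) := by ring
    _ ≤ _ := h1

open Pool.Agent.Work.MP_9fe0db_an in
/-- **Simultaneous renorming.**  Let `X` be a real normed space (for instance a Banach space), let
`q` be real (for instance `q > 0`) and `p > 1`.  If `X` has an equivalent norm with modulus of convexity of power type `q`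
and an equivalent norm with modulus of smoothness of power type `p`, then it has an equivalent
norm with both properties, for the same exponents. -/
theorem result (X : Type u) [NormedAddCommGroup X] [NormedSpace ℝ X] (p q : ℝ) (hp : 1 < p)
    (hconv : ∃ N : X → ℝ, IsEquivalentNorm N ∧ ConvexityPowerType N q)
    (hsmooth : ∃ N : X → ℝ, IsEquivalentNorm N ∧ SmoothnessPowerType N p) :
    ∃ N : X → ℝ, IsEquivalentNorm N ∧ ConvexityPowerType N q ∧ SmoothnessPowerType N p := by
  obtain ⟨P, hPe, hP⟩ := hconv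
  obtain ⟨Q, hQe, KQ, hQ⟩ := hsmooth
  have hPN : IsN P := ⟨hPe.1, hPe.2.1⟩
  have hQN : IsN Q := ⟨hQe.1, hQe.2.1⟩
  obtain ⟨KP, hKP, hPδ⟩ := convexity_closed hP
  have hQρ : ∀ τ : ℝ, 0 < τ → ∀ x y : X, Q x = 1 → Q y = 1 →
      (Q (x + τ • y) + Q (x - τ • y)) / 2 - 1 ≤ max KQ 1 * τ ^ p := by
    intro τ hτ x y hx hy
    refine ((smoothness_iff Q KQ τ p).1 (hQ τ hτ) x y hx hy).trans ?_
    exact mul_le_mul_of_nonneg_right (le_max_left _ _) (Real.rpow_nonneg hτ.le p)
  have hK1 : 0 < max KQ 1 := lt_of_lt_of_le one_pos (le_max_right _ _)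
  by_cases hdim : ∀ a b : X, ∃ s r : ℝ, s • a + r • b = 0 ∧ ¬ (s = 0 ∧ r = 0)
  · -- dimension at most one
    refine ⟨P, hPe, hP, 1, fun τ hτ => (smoothness_iff P 1 τ p).2 fun u v hu hv => ?_⟩
    exact low_smooth hPN hdim hp hτ hu hv
  · -- dimension at least two
    push Not at hdim
    obtain ⟨a, b, hab⟩ := hdim
    let f : ℝ × ℝ →ₗ[ℝ] X :=
      { toFun := fun z => z.1 • a + z.2 • b
        map_add' := fun z w => by simp only [Prod.fst_add, Prod.snd_add]; module
        map_smul' := fun c z => by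
          simp only [Prod.smul_fst, Prod.smul_snd, smul_eq_mul, RingHom.id_apply]; module }
    have hker : LinearMap.ker f = ⊥ := by
      rw [LinearMap.ker_eq_bot']
      rintro ⟨s, r⟩ h
      obtain ⟨h1, h2⟩ := hab s r h
      rw [h1, h2]; rfl
    obtain ⟨K0, hK0, hanti⟩ := f.exists_antilipschitzWith hker
    have hK0' : (0 : ℝ) < K0 := hK0
    have low : ∀ {N : X → ℝ}, IsEquivalentNorm N → ∃ m : ℝ, 0 < m ∧
        ∀ s r : ℝ, m * max |s| |r| ≤ N (s • a + r • b) := by
      rintro N ⟨-, -, c, d, hc, -, hcd⟩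
      refine ⟨c / K0, by positivity, fun s r => ?_⟩
      have h1 := hanti.le_mul_dist (s, r) (0, 0)
      have h2 : dist (f (s, r)) (f (0, 0)) = ‖s • a + r • b‖ := by
        have : f (0, 0) = 0 := f.map_zero
        rw [this, dist_zero_right]
        rfl
      have h3 : dist ((s, r) : ℝ × ℝ) (0, 0) = max |s| |r| := by
        rw [Prod.dist_eq]
        simp
      rw [h2, h3] at h1
      have h4 := (hcd (s • a + r • b)).1
      calc c / K0 * max |s| |r| ≤ c / K0 * (K0 * ‖s • a + r • b‖) :=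
            mul_le_mul_of_nonneg_left h1 (by positivity)
        _ = c * ‖s • a + r • b‖ := by field_simp
        _ ≤ _ := h4
    obtain ⟨m, hm, hmP⟩ := low hPe
    obtain ⟨m', hm', hmQ⟩ := low hQe
    rcases lt_or_ge q 2 with hq2 | hq2
    · exact (no_convex_lt_two hPN hm a b hmP hq2 hKP hPδ).elim
    rcases lt_or_ge 2 p with hp2 | hp2
    · exact (no_smooth_gt_two hQN hm' a b hmQ hp2 hK1 hQρ).elim
    obtain ⟨N, hN, ⟨K, hK, hNδ⟩, L, hL, hNρ⟩ := main X p q hp hp2 hq2
      ⟨P, hPe, KP, hKP, hPδ⟩ ⟨Q, hQe, max KQ 1, hK1, fun t ht _ x y hx hy => hQρ t ht x y hx hy⟩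
    refine ⟨N, hN, ⟨K, hK, fun ε h0 h2 => (convexity_iff N K ε q).2 fun u v hu hv huv =>
      hNδ ε h0 h2.le u v hu hv huv⟩, max L 1, fun τ hτ => ?_⟩
    refine (smoothness_iff N (max L 1) τ p).2 fun u v hu hv => ?_
    have hNN : IsN N := ⟨hN.1, hN.2.1⟩
    rcases le_total τ 1 with h1 | h1
    · refine (hNρ τ hτ h1 u v hu hv).trans ?_
      exact mul_le_mul_of_nonneg_right (le_max_left _ _) (Real.rpow_nonneg hτ.le p)
    · have h2 := hNN.tri u (τ • v)
      have h3 := hNN.sub_le u (τ • v)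
      rw [hNN.homn hτ.le, hu, hv] at h2 h3
      have h4 : τ ^ (1 : ℝ) ≤ τ ^ p := Real.rpow_le_rpow_of_exponent_le h1 hp.le
      rw [Real.rpow_one] at h4
      have h5 : 1 * τ ^ p ≤ max L 1 * τ ^ p :=
        mul_le_mul_of_nonneg_right (le_max_right _ _) (Real.rpow_nonneg hτ.le p)
      linarith

end Pool.Agent.Results.MP_9fe0db_an.AllExponents
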